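import Pool.Agent.Helper87.HQ.St

/-!
# Project HQ, module Fin: the final theorem from the statement on one eigenvalue
-/

set_option autoImplicit false

namespace Pool.Agent.Helper89.HQ

open Set MvPolynomial
open Pool.Agent.Helper87.HQ

private lemma second_unique (G : MetricGraph) (α : G.V → ℝ) {μ μ' : ℝ} (h : G.IsSecond α μ)
    (h' : G.IsSecond α μ') : ¬ μ < μ' := by
  intro hlt
  have h2 : (⨆ ν ∈ Iic μ, G.eigenspace α ν) ≤ ⨆ ν ∈ Iio μ', G.eigenspace α ν :=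
    biSup_mono (fun ν hν => lt_of_le_of_lt hν hlt)
  exact absurd (h.2.trans (Submodule.rank_mono h2)) (not_le.2 h'.1)

private lemma second_eq (G : MetricGraph) (α : G.V → ℝ) {μ μ' : ℝ} (h : G.IsSecond α μ)
    (h' : G.IsSecond α μ') : μ = μ' :=
  le_antisymm (not_lt.1 (second_unique G α h' h)) (not_lt.1 (second_unique G α h h'))

private lemma mem_hotSpots_iff (G : MetricGraph) (α : G.V → ℝ) {μ : ℝ} (h : G.IsSecond α μ) (p : G.Pt) :
    p ∈ G.hotSpots α ↔ ∃ F ∈ G.eigenspace α μ, F ≠ 0 ∧ ∀ y, F y ≤ F p := by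
  constructor
  · rintro ⟨μ', hμ', F, hF, hne, hm⟩
    have hμ : μ' = μ := second_eq G α hμ' h
    subst hμ
    rcases hm with hm | hm
    · exact ⟨F, hF, hne, hm⟩
    · refine ⟨-F, Submodule.neg_mem _ hF, neg_ne_zero.2 hne, fun y => ?_⟩
      simp only [Pi.neg_apply, neg_le_neg_iff]
      exact hm y
  · rintro ⟨F, hF, hne, hm⟩
    exact ⟨μ, h, F, hF, hne, Or.inl hm⟩

theorem hFin : StFin := by
  intro hCA G α hG
  by_cases hex : ∃ μ, G.IsSecond α μ
  swap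
  · left
    have : G.hotSpots α = ∅ := by
      ext p
      simp only [mem_empty_iff_false, iff_false]
      rintro ⟨μ, hμ, -⟩
      exact hex ⟨μ, hμ⟩
    rw [this]
    exact finite_empty
  obtain ⟨μ, hμ⟩ := hex
  by_cases hfin : ∀ e : G.E, (Hot G α μ e).Finite
  · left
    have hsub : G.hotSpots α ⊆ range (Sum.inl : G.V → G.Pt) ∪
        ⋃ e : G.E, (fun x : Ioo (0 : ℝ) (G.len e) => (Sum.inr ⟨e, x⟩ : G.Pt)) ''
          ((fun x : Ioo (0 : ℝ) (G.len e) => (x : ℝ)) ⁻¹' (Hot G α μ e)) := by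
      rintro p hp
      rw [mem_hotSpots_iff G α hμ] at hp
      obtain ⟨F, hF, hne, hm⟩ := hp
      rcases p with v | ⟨e, x⟩
      · exact Or.inl ⟨v, rfl⟩
      · refine Or.inr (mem_iUnion.2 ⟨e, ⟨x, ?_, rfl⟩⟩)
        exact ⟨x.2, F, hF, hne, hm⟩
    refine Finite.subset (Finite.union (finite_range _) (finite_iUnion fun e => Finite.image _ ?_)) hsub
    exact Finite.preimage (Subtype.val_injective.injOn) (hfin e)
  · right
    push Not at hfin
    obtain ⟨e, he⟩ := hfin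
    obtain ⟨a, b, hab, hsub⟩ := hCA G α μ e hG he
    have hHot : Hot G α μ e ⊆ Ioo (0 : ℝ) (G.len e) := by
      rintro x ⟨hx, -⟩
      exact hx
    have h1 := (Ioo_subset_Ioo_iff hab).1 (hsub.trans hHot)
    have key : ∀ (x : ℝ) (h : x ∈ Ioo (0 : ℝ) (G.len e)), a < x → x < b →
        (Sum.inr ⟨e, ⟨x, h⟩⟩ : G.Pt) ∈ G.hotSpots α := by
      intro x h hax hxb
      obtain ⟨hx, F, hF, hne, hm⟩ := hsub ⟨hax, hxb⟩
      rw [mem_hotSpots_iff G α hμ]
      exact ⟨F, hF, hne, hm⟩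
    refine ⟨?_, e, a, b, h1.1, hab, h1.2, key⟩
    intro hc
    have hinj : Function.Injective (fun x : Ioo (0 : ℝ) (G.len e) => (Sum.inr ⟨e, x⟩ : G.Pt)) := by
      intro x y hxy
      simpa using hxy
    have h2 := hc.preimage_of_injOn (f := fun x : Ioo (0 : ℝ) (G.len e) => (Sum.inr ⟨e, x⟩ : G.Pt))
      hinj.injOn
    have h3 := h2.image (fun x : Ioo (0 : ℝ) (G.len e) => (x : ℝ))
    have h4 : Ioo a b ⊆ (fun x : Ioo (0 : ℝ) (G.len e) => (x : ℝ)) ''
        ((fun x : Ioo (0 : ℝ) (G.len e) => (Sum.inr ⟨e, x⟩ : G.Pt)) ⁻¹' (G.hotSpots α)) := by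
      intro x hx
      have hx0 : x ∈ Ioo (0 : ℝ) (G.len e) := hHot (hsub hx)
      exact ⟨⟨x, hx0⟩, key x hx0 hx.1 hx.2, rfl⟩
    have h5 := (Cardinal.Real.Ioo_countable_iff).1 (h3.mono h4)
    exact absurd hab (not_lt.2 h5)

end Pool.Agent.Helper89.HQ
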